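import Pool.Agent.MinRank.HESSE
import Pool.Agent.MinRank.LOCAL
import Pool.Agent.MinRank.CONF3
import Pool.Agent.MinRank.CONF
import Pool.Agent.MinRank.COMPL
import Pool.Agent.MinRank.GAL1
import Pool.Agent.MinRank.GALM
import Pool.Agent.MinRank.WIT
import Pool.Agent.MinRank.PHI
import Pool.Agent.MinRank.PAT
import Pool.Agent.MinRank.GRAPH
import Pool.Agent.MinRank.PHASE
import Pool.Agent.MinRank.RERANK2
import Pool.Agent.MinRank.GEN
import Pool.Agent.MinRank.ISO
import Pool.Agent.MinRank.ISO2
import Pool.Agent.MinRank.RED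
import Pool.Agent.MinRank.UP3
import Pool.Agent.MinRank.UP2
import Pool.Agent.MinRank.PAIRS

/-!
# All pairs of complex and real minimum rank of graphs

The pairs (complex minimum rank, real minimum rank) of finite simple graphs are exactly the pairs
`(k, m)` with `m = k` or `k ≤ m ≤ 2 k - 2`. In particular, for `2 ≤ k`, the largest real minimum
rank of a graph with complex minimum rank `k` is `2 k - 2`.
-/

open Pool.Agent.MinRank

namespace Pool.Agent.Results.MP_9d9bd3_co.AllPairs

theorem final : Stmt_FINAL :=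
  FINAL_thm
    (GRAPH_thm (PAT_thm (LOCAL_thm HESSE_thm) (CONF_thm CONF3_thm)
      (GALM_thm (GAL1_thm COMPL_thm)) WIT_thm PHI_thm))
    (UP2_thm PHASE_thm ISO2_thm RED_thm)
    (UP3_thm PHASE_thm RERANK2_thm (ISO_thm GEN_thm) RED_thm)

/-- There is a graph with complex minimum rank `k` and real minimum rank `m` exactly if `m = k` or
`k ≤ m ≤ 2 k - 2`. -/
theorem result (k m : ℕ) :
    (∃ (n : ℕ) (G : SimpleGraph (Fin n)), mr ℂ G = k ∧ mr ℝ G = m) ↔
      m = k ∨ k ≤ m ∧ m ≤ 2 * k - 2 :=
  PAIRS_thm final k m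

end Pool.Agent.Results.MP_9d9bd3_co.AllPairs
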